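import Mathlib
import Pool.Agent.R206.Bous.Sub

namespace Pool.Agent.Results.MP_0afb51_an.MultiPoint

open Set Filter Topology
open scoped ContDiff

/-- A Schwartz class solution of `u_tt = u_xx + (u^2)_xx + u_xxxx` on `ℝ × [0,T)`. -/
structure IsSchwartzSolution (T : ℝ) (u : ℝ → ℝ → ℝ) : Prop where
  smooth : ContDiffOn ℝ ∞ (fun p : ℝ × ℝ => u p.1 p.2) (univ ×ˢ Ico 0 T)
  eqn : ∀ x : ℝ, ∀ t ∈ Ico 0 T,
    iteratedDerivWithin 2 (fun s => u x s) (Ico 0 T) t =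
      iteratedDeriv 2 (fun y => u y t) x + iteratedDeriv 2 (fun y => (u y t) ^ 2) x
        + iteratedDeriv 4 (fun y => u y t) x
  decay : ∀ N : ℕ, ∀ τ ∈ Ico 0 T, ∃ C : ℝ, ∀ x : ℝ, ∀ t ∈ Icc 0 τ,
    ∑ i ∈ Finset.range (N + 1), (1 + |x|) ^ N * |iteratedDeriv i (fun y => u y t) x| ≤ C

/-- the mixed derivative `∂_x^{q₁} ∂_t^{q₂} u (x, t)` -/
noncomputable def mixed (T : ℝ) (u : ℝ → ℝ → ℝ) (q₁ q₂ : ℕ) (x t : ℝ) : ℝ :=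
  iteratedDeriv q₁ (fun y => iteratedDerivWithin q₂ (fun s => u y s) (Ico 0 T) t) x

/-- `f`, a function on `ℝ × [0,T)`, is unbounded near the point `p`. -/
def UnboundedNear (T : ℝ) (f : ℝ → ℝ → ℝ) (p : ℝ × ℝ) : Prop :=
  ∀ V ∈ 𝓝 p, ∀ M : ℝ, ∃ x t : ℝ, (x, t) ∈ V ∧ 0 ≤ t ∧ t < T ∧ M < |f x t|

/-- Affirmative answer to Q1 for all `T`, `q`, with the two points prescribed. -/
theorem result : ∀ T : ℝ, 0 < T → ∀ q : ℕ, ∀ x₁ x₂ : ℝ, x₁ ≠ x₂ → ∃ u : ℝ → ℝ → ℝ,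
    IsSchwartzSolution T u ∧
    (∀ q₁ q₂ : ℕ, q₁ + 2 * q₂ ≤ q → ∃ C : ℝ, ∀ x : ℝ, ∀ t ∈ Ico 0 T, |mixed T u q₁ q₂ x t| ≤ C) ∧
    (∃ q₁ q₂ : ℕ, q₁ + 2 * q₂ = q + 1 ∧
      UnboundedNear T (mixed T u q₁ q₂) (x₁, T) ∧ UnboundedNear T (mixed T u q₁ q₂) (x₂, T)) := by
  intro T hT q x₁ x₂ hne
  obtain ⟨u, hu, hb, hd⟩ := Pool.Agent.R206.Bous.subcritical hT q hne
  have hr : ∀ x : ℝ, (x = x₁ ∨ x = x₂) → UnboundedNear T (mixed T u (q + 1) 0) (x, T) := by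
    intro x hx V hV M
    obtain ⟨τ, hτ, hτT, h⟩ := hd x hx M
    have hcont : Tendsto (fun t : ℝ => (x, t)) (𝓝[<] T) (𝓝 (x, T)) :=
      ((continuous_const.prodMk continuous_id).tendsto T).mono_left nhdsWithin_le_nhds
    have h1 : ∀ᶠ t in 𝓝[<] T, (x, t) ∈ V := hcont hV
    have h2 : ∀ᶠ t in 𝓝[<] T, t ∈ Ioo τ T := Ioo_mem_nhdsLT hτT
    obtain ⟨t, ht1, ht2⟩ := (h1.and h2).exists
    refine ⟨x, t, ht1, by linarith [ht2.1], ht2.2, ?_⟩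
    have h3 := h t ⟨ht2.1.le, ht2.2⟩
    have e : mixed T u (q + 1) 0 x t = iteratedDeriv (q + 1) (fun y => u y t) x := by
      unfold mixed; simp
    rw [e]
    exact lt_of_lt_of_le h3 (le_abs_self _)
  exact ⟨u, ⟨hu.smooth, hu.eqn, hu.decay⟩, hb, q + 1, 0, by omega, hr x₁ (Or.inl rfl), hr x₂ (Or.inr rfl)⟩

end Pool.Agent.Results.MP_0afb51_an.MultiPoint
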